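import Mathlib

open MeasureTheory ProbabilityTheory Filter Topology Set unitInterval
open scoped ENNReal

namespace Pool.Agent.Results.MP_e2d9cc_pr.Ham

section
variable {Ω : Type} [MeasurableSpace Ω] (μ : Measure Ω) (W : Ω → Ω → ℝ)

/-- `W` is connected (negation of (i)) -/
def Conn : Prop := ∀ S, MeasurableSet S → 0 < μ S → 0 < μ Sᶜ → 0 < ∫ p in S ×ˢ Sᶜ, W p.1 p.2 ∂μ.prod μ

/-- condition (ii) -/
def Tail : Prop := Tendsto (fun α : ℝ => μ.real {x | ∫ y, W x y ∂μ ≤ α} / α) (𝓝[>] 0) atTop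

/-- condition (iii), with `W = 0` required only almost everywhere -/
def Narrow : Prop := ∃ a ∈ Ioc (0 : ℝ) (1 / 2), ∃ A B, MeasurableSet A ∧ MeasurableSet B ∧ Disjoint A B ∧
  a < μ.real A ∧ μ.real B = 1 - 2 * a ∧ ∀ᵐ p ∂μ.prod μ, p ∈ A ×ˢ (A ∪ B) → W p.1 p.2 = 0

/-- condition (iv) -/
def Bip : Prop := ∃ S, MeasurableSet S ∧ μ.real S = 1 / 2 ∧ μ.real Sᶜ = 1 / 2 ∧
  ∀ᵐ p ∂μ.prod μ, p ∈ S ×ˢ S ∪ Sᶜ ×ˢ Sᶜ → W p.1 p.2 = 0

/-- probability that `G(n, W)` is Hamiltonian; `i < j` are joined iff `U (i, j) < W (X i) (X j)` -/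
noncomputable def PH (n : ℕ) : ℝ :=
  ((Measure.pi fun _ : Fin n => μ).prod (Measure.pi fun _ : Fin n × Fin n => (volume : Measure I))).real
    {z | (SimpleGraph.fromRel fun i j => i < j ∧ (z.2 (i, j) : ℝ) < W (z.1 i) (z.1 j)).IsHamiltonian}
end

lemma nxt {n : ℕ} (hn : 2 ≤ n) {G : SimpleGraph (Fin n)} (h : G.IsHamiltonian) :
    ∃ f : Fin n → Fin n, f.Bijective ∧ ∀ v, G.Adj v (f v) := by
  obtain ⟨a, p, hp⟩ := h (by simp; omega)
  have : ∀ v, ∃ k < p.length, p.getVert k = v := fun v => by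
    obtain ⟨k, a, b⟩ := SimpleGraph.Walk.mem_support_iff_exists_getVert.1 (hp.mem_support v)
    rcases b.lt_or_eq with b | rfl
    exacts [⟨k, b, a⟩, ⟨0, by simp [hp.length_eq]; omega, by simpa using a⟩]
  choose k k1 k2 using this
  refine ⟨fun v => p.getVert (k v + 1), Finite.injective_iff_bijective.1 fun v w e => ?_,
    fun v => by simpa [k2] using p.adj_getVert_succ (k1 v)⟩
  have := hp.isCycle.getVert_injOn ⟨by simp, k1 v⟩ ⟨by simp, k1 w⟩ e
  rw [← k2 v, ← k2 w, Nat.succ_injective this]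

variable {n : ℕ} (l : Fin n → ℕ)

def d (i : ℕ) (b : Fin n → Bool) : ℤ := ∑ v, if l v = i then if b v then -1 else 1 else 0
def F (K : ℕ) : Finset (Fin n → Bool) := Finset.univ.filter fun b => ∀ i < K, 0 ≤ d l i b

lemma cnt (K : ℕ) (h : ∀ i < K, ∃ v, l v = i) : 4 ^ K * (F l K).card ≤ 3 ^ K * 2 ^ n := by
  induction K with
  | zero => simp [F]
  | succ K ih =>
    obtain ⟨v, hv⟩ := h K (by omega)
    have fl : ∀ (c : Fin n → Bool) (P Q : (Fin n → Bool) → Prop) [DecidablePred P] [DecidablePred Q],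
        (∀ v, c v → l v = K) → (∀ b, P b → Q fun v => xor (b v) (c v)) →
        ((F l K).filter P).card ≤ ((F l K).filter Q).card := fun c P Q _ _ hc e => by
      refine Finset.card_le_card_of_injOn (fun b v => xor (b v) (c v)) (fun b hb => ?_) fun b _ b' _ e =>
        funext fun v => by simpa using congrFun e v
      simp only [F, Finset.coe_filter, Finset.mem_filter, Finset.mem_univ, true_and, mem_ofPred_eq] at hb ⊢
      refine ⟨fun i hi => (hb.1 i hi).trans_eq (Finset.sum_congr rfl fun v _ => ?_), e b hb.2⟩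
      have := hc v
      cases h : c v <;> simp_all
      omega
    have a := fl (fun v => l v = K) (fun b => 0 < d l K b) (fun b => d l K b < 0) (by simp) fun b e => by
      refine lt_of_eq_of_lt ?_ (neg_lt_zero.2 e)
      rw [d, d, ← Finset.sum_neg_distrib]
      exact Finset.sum_congr rfl fun v _ => by by_cases h : l v = K <;> cases b v <;> simp [h]
    have a' := fl (fun w => w = v) (fun b => d l K b = 0) (fun b => ¬d l K b = 0) (by simpa) fun b e e' => by
      rw [d, ← Finset.add_sum_erase _ _ (Finset.mem_univ v)] at e e'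
      rw [Finset.sum_congr rfl (g := fun v => if l v = K then if b v then -1 else 1 else 0)
        fun w hw => by simp [(Finset.mem_erase.1 hw).1]] at e'
      cases h : b v <;> simp [h, hv] at e e' <;> omega
    have b1 := Finset.card_filter_add_card_filter_not (s := F l K) fun b => d l K b = 0
    have b2 : ((F l K).filter fun b => 0 < d l K b).card + ((F l K).filter fun b => d l K b < 0).card ≤
        ((F l K).filter fun b => ¬d l K b = 0).card := by
      rw [← Finset.card_union_of_disjoint (Finset.disjoint_filter.2 fun _ _ _ => by omega), ← Finset.filter_or]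
      exact Finset.card_le_card (Finset.monotone_filter_right _ fun _ _ _ => by omega)
    have b3 : (F l (K + 1)).card ≤ ((F l K).filter fun b => d l K b = 0).card +
        ((F l K).filter fun b => 0 < d l K b).card := by
      refine le_trans (Finset.card_le_card fun b hb => ?_) (Finset.card_union_le _ _)
      simp only [F, Finset.mem_filter, Finset.mem_univ, true_and, Finset.mem_union] at hb ⊢
      have := hb K (by omega)
      rw [← and_or_left]; exact ⟨fun i hi => hb i (by omega), by omega⟩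
    have := ih fun i hi => h i (by omega)
    have c : 4 * (F l (K + 1)).card ≤ 3 * (F l K).card := by omega
    rw [pow_succ, pow_succ]; nlinarith [Nat.mul_le_mul_left (4 ^ K) c]

abbrev Ω := (ℕ × I) × Bool
noncomputable def hf : I := ⟨1 / 2, by norm_num, by norm_num⟩
noncomputable def cn : Measure Bool := uniformOn univ
instance : IsProbabilityMeasure cn := by unfold cn; infer_instance
noncomputable def μ : Measure Ω := ((geometricMeasure hf).prod volume).prod cn
instance : IsProbabilityMeasure μ := by unfold μ; infer_instance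
noncomputable def W (x y : Ω) : ℝ := if x.2 = false ∧ y.2 = false ∨ x.1.1 = y.1.1 ∧ x.2 ≠ y.2 then 1 else 0
def Ty (i : ℕ) (b : Bool) : Set Ω := ({i} ×ˢ univ) ×ˢ {b}
def C : Set Ω := univ ×ˢ {false}

lemma mT (i b) : MeasurableSet (Ty i b) := ((MeasurableSet.singleton i).prod .univ).prod (.singleton b)
lemma coin (b : Bool) : cn {b} = 2⁻¹ := by rw [cn, uniformOn_univ]; simp
lemma geo (i : ℕ) : geometricMeasure hf {i} = 2⁻¹ ^ (i + 1) := by
  rw [geometricMeasure_singleton (by simp [hf, Subtype.ext_iff]), ← ENNReal.ofReal_ofNat,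
    ← ENNReal.ofReal_inv_of_pos two_pos, ← ENNReal.ofReal_pow (by norm_num)]
  norm_num [hf, pow_succ]
lemma μT (i b) : μ (Ty i b) = 2⁻¹ ^ (i + 2) := by simp [μ, Ty, coin, geo, pow_succ]
lemma μC : μ C = 2⁻¹ := by simp [μ, C, coin]
lemma mW : Measurable fun p : Ω × Ω => W p.1 p.2 := (measurable_of_countable fun q : (ℕ × Bool) × ℕ × Bool =>
  if q.1.2 = false ∧ q.2.2 = false ∨ q.1.1 = q.2.1 ∧ q.1.2 ≠ q.2.2 then (1 : ℝ) else 0).comp
    (f := fun p : Ω × Ω => ((p.1.1.1, p.1.2), p.2.1.1, p.2.2)) (by fun_prop)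
lemma W01 (x y) : W x y ∈ Icc (0 : ℝ) 1 := by unfold W; split_ifs <;> simp

lemma dec (S : Set Ω) (h : MeasurableSet S) : μ S = ∑' i, (μ (S ∩ Ty i true) + μ (S ∩ Ty i false)) := by
  have : μ S = ∑' p : ℕ × Bool, μ (S ∩ Ty p.1 p.2) := by
    rw [← measure_iUnion (fun p q e => disjoint_left.2 fun x a b => e (by simp_all [Ty, Prod.ext_iff]))
      fun p => h.inter (mT _ _), ← inter_iUnion, eq_univ_of_forall (s := iUnion _) fun x =>
        mem_iUnion.2 ⟨(x.1.1, x.2), by simp [Ty]⟩, inter_univ]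
  simpa [ENNReal.tsum_prod', tsum_fintype] using this

lemma Z {R : Set (Ω × Ω)} (h : ∀ᵐ p ∂μ.prod μ, p ∈ R → W p.1 p.2 = 0) {S T : Set Ω} (e : S ×ˢ T ⊆ R)
    (o : ∀ x ∈ S, ∀ y ∈ T, W x y = 1) : μ S = 0 ∨ μ T = 0 := by
  rw [← mul_eq_zero, ← Measure.prod_prod]
  refine measure_mono_null ?_ (ae_iff.1 h)
  intro p hp k
  simpa [o _ hp.1 _ hp.2] using k (e hp)

lemma tc (T : Set Ω) (i : ℕ) : T ∩ Ty i false ⊆ T ∩ C := fun _ h => ⟨h.1, trivial, h.2.2⟩

lemma half {S : Set Ω} (h : MeasurableSet S) (a : μ (S ∩ C) = 0) (b : μ (Sᶜ ∩ C) = 0) : False := by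
  have := measure_inter_add_sdiff (μ := μ) C h
  rw [inter_comm, sdiff_eq, inter_comm C, a, b, μC] at this
  simpa using this.symm

lemma conn : Conn μ W := fun S hS h1 h2 => by
  have i : Integrable (fun p : Ω × Ω => W p.1 p.2) ((μ.prod μ).restrict (S ×ˢ Sᶜ)) :=
    .of_mem_Icc 0 1 mW.aemeasurable (.of_forall fun _ => W01 _ _)
  refine (integral_nonneg fun p => (W01 _ _).1).lt_of_ne' fun e => ?_
  have h := (ae_restrict_iff' (hS.prod hS.compl)).1 ((integral_eq_zero_iff_of_nonneg (fun p => (W01 _ _).1) i).1 e)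
  have k : ∀ T : Set Ω, MeasurableSet T → 0 < μ T → μ (T ∩ C) = 0 →
      ∃ i, μ (T ∩ Ty i true) ≠ 0 ∧ μ (Tᶜ ∩ Ty i false) ≠ 0 := fun T hT a b => by
    have c : ∀ i, μ (T ∩ Ty i false) = 0 := fun i => measure_mono_null (tc T i) b
    obtain ⟨i, hi⟩ : ∃ i, μ (T ∩ Ty i true) ≠ 0 := by by_contra! h; simp [dec T hT, h, c] at a
    refine ⟨i, hi, fun e => ?_⟩
    have := measure_inter_add_sdiff (μ := μ) (Ty i false) hT
    rw [inter_comm, sdiff_eq, inter_comm (Ty _ _), c, e, μT] at this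
    simpa using this.symm
  rcases Z h (S := S ∩ C) (T := Sᶜ ∩ C) (prod_mono inter_subset_left inter_subset_left)
    (fun x a y b => by simp_all [W, C]) with e | e
  · obtain ⟨i, a, b⟩ := k S hS h1 e
    exact (Z h (prod_mono inter_subset_left inter_subset_left) fun x a y b => by simp_all [W, Ty]).elim a b
  · obtain ⟨i, a, b⟩ := k Sᶜ hS.compl h2 e
    rw [compl_compl] at b
    exact (Z h (prod_mono inter_subset_left inter_subset_left) fun x a y b => by simp_all [W, Ty]).elim b a

lemma tail : ¬Tail μ W := fun h => by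
  have t : Tendsto (fun j : ℕ => (2⁻¹ : ℝ) ^ (j + 2)) atTop (𝓝[>] 0) := tendsto_nhdsWithin_iff.2
    ⟨(tendsto_add_atTop_iff_nat 2).2 (tendsto_pow_atTop_nhds_zero_of_lt_one (by norm_num) (by norm_num)),
      .of_forall fun _ => by simp⟩
  obtain ⟨j, hj⟩ := ((h.comp t).eventually_gt_atTop 2).exists
  have dg : ∀ x T, MeasurableSet T → (∀ y ∈ T, W x y = 1) → μ.real T ≤ ∫ y, W x y ∂μ := fun x T hT e => by
    rw [← integral_indicator_one hT]
    refine integral_mono ((integrable_const _).indicator hT) (.of_mem_Icc 0 1 (mW.comp measurable_prodMk_left).aemeasurable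
      (.of_forall fun _ => W01 _ _)) fun y => ?_
    by_cases h : y ∈ T <;> simp [h, e, (W01 _ _).1]
  have : μ {x | ∫ y, W x y ∂μ ≤ 2⁻¹ ^ (j + 2)} ≤ 2 * 2⁻¹ ^ (j + 2) := by
    refine (measure_mono (t := ⋃ i, Ty (i + j) true) fun x hx => ?_).trans ((measure_iUnion_le _).trans_eq ?_)
    · rcases x with ⟨⟨i, u⟩, _ | _⟩
      · have := (dg _ C (MeasurableSet.univ.prod (.singleton _)) fun y a => by simp_all [W, C]).trans hx
        rw [Measure.real, μC] at this
        have := pow_le_pow_of_le_one (a := (2⁻¹ : ℝ)) (by norm_num) (by norm_num) (show 2 ≤ j + 2 by omega)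
        simp at *; linarith
      · have := (dg _ _ (mT i false) fun y a => by simp_all [W, Ty]).trans hx
        rw [Measure.real, μT, ENNReal.toReal_pow] at this
        have := (pow_le_pow_iff_right_of_lt_one₀ (by norm_num) (by norm_num)).1 (show (2⁻¹ : ℝ) ^ _ ≤ _ by simpa using this)
        exact mem_iUnion.2 ⟨i - j, by simp [Ty]; omega⟩
    · simp only [μT, add_assoc, pow_add _ _ (j + 2), ENNReal.tsum_mul_right, ENNReal.tsum_geometric_two]
  have := ENNReal.toReal_mono (by finiteness) this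
  simp only [Function.comp, lt_div_iff₀ (show (0 : ℝ) < 2⁻¹ ^ (j + 2) by positivity), Measure.real] at hj
  simp at this hj; linarith

lemma narrow : ¬Narrow μ W := fun ⟨a, _, A, B, hA, hB, dj, h1, h2, h⟩ => by
  have c : μ (A ∩ C) = 0 := (Z h (S := A ∩ C) (T := A ∩ C) (prod_mono inter_subset_left
    (inter_subset_left.trans subset_union_left)) fun x a y b => by simp_all [W, C]).elim id id
  have : μ A + μ A + μ B ≤ μ univ := by
    rw [dec A hA, dec B hB, dec _ .univ, ← ENNReal.tsum_add, ← ENNReal.tsum_add]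
    refine ENNReal.tsum_le_tsum fun i => ?_
    have m : ∀ S b, μ (S ∩ Ty i b) ≤ 2⁻¹ ^ (i + 2) := fun S b => (measure_mono inter_subset_right).trans_eq (μT _ _)
    rw [measure_mono_null (tc A i) c, univ_inter, univ_inter, μT, μT]
    rcases Z h (S := A ∩ Ty i true) (T := B ∩ Ty i false) (prod_mono inter_subset_left
      (inter_subset_left.trans subset_union_right)) (fun x a y b => by simp_all [W, Ty]) with e | e <;> rw [e]
    · simpa using add_le_add (m _ _) (m _ _)
    · rw [add_zero, add_zero, add_assoc, ← measure_union (dj.mono inter_subset_left inter_subset_left)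
        (hB.inter (mT _ _)), ← union_inter_distrib_right]
      exact add_le_add (m _ _) (m _ _)
  have := ENNReal.toReal_mono (by finiteness) this
  rw [ENNReal.toReal_add (by finiteness) (by finiteness), ENNReal.toReal_add (by finiteness) (by finiteness)] at this
  simp only [Measure.real, measure_univ, ENNReal.toReal_one] at *; linarith

lemma bound (K n : ℕ) (hn : 2 ≤ n) : PH μ W n ≤ (3 / 4) ^ K + ∑ i ∈ Finset.range K, (1 - 2⁻¹ ^ (i + 1)) ^ n := by
  let G : Set ((Fin n → ℕ × I) × (Fin n → Bool)) :=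
    (fun z => (fun v => (z.1 v).1, z.2)) ⁻¹' {z | (∀ i < K, ∃ v, z.1 v = i) ∧ z.2 ∈ F z.1 K}
  have mG : MeasurableSet G := (Countable.measurableSet (to_countable _)).preimage (by fun_prop)
  let P := Measure.pi fun _ : Fin n => μ
  have a : P.real (MeasurableEquiv.arrowProdEquivProdArrow _ _ _ ⁻¹' G) ≤ (3 / 4) ^ K := by
    have := measurePreserving_arrowProdEquivProdArrow (ℕ × I) Bool (Fin n) (fun _ => (geometricMeasure hf).prod volume)
      fun _ => cn
    refine ENNReal.toReal_le_of_le_ofReal (by positivity) ((this.measure_preimage mG.nullMeasurableSet).trans_le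
      ((Measure.prod_apply_le mG).trans ((lintegral_mono fun x => ?_).trans_eq (lintegral_const _ |>.trans (by simp; rfl)))))
    by_cases e : ∀ i < K, ∃ v, (x v).1 = i
    · rw [show Prod.mk x ⁻¹' G = F (fun v => (x v).1) K by ext; simp only [G, mem_preimage, mem_ofPred_eq]; simp [eq_true e], ← sum_measure_singleton]
      simp only [Measure.pi_singleton, coin, Finset.prod_const, Finset.sum_const, nsmul_eq_mul, Finset.card_univ,
        Fintype.card_fin]
      refine (ENNReal.le_ofReal_iff_toReal_le (by finiteness) (by positivity)).2 ?_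
      have : (4 ^ K * (F (fun v => (x v).1) K).card : ℝ) ≤ 3 ^ K * 2 ^ n := mod_cast cnt _ K e
      simp [div_pow]; field_simp; linarith
    · rw [show Prod.mk x ⁻¹' G = ∅ by ext; simp [G, e]]; simp
  have b : ∀ i, P.real (univ.pi fun _ => ({i}ᶜ ×ˢ univ) ×ˢ univ) = (1 - 2⁻¹ ^ (i + 1)) ^ n := fun i => by
    have : 2⁻¹ ^ (i + 1) ≤ (1 : ℝ≥0∞) := pow_le_one₀ (by simp) (by simp)
    simp [-Bool.univ_eq, P, Measure.real, μ, prob_compl_eq_one_sub, geo, ENNReal.toReal_sub_of_le this]
  refine (measureReal_mono (s₂ := (MeasurableEquiv.arrowProdEquivProdArrow _ _ _ ⁻¹' G ∪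
    ⋃ i ∈ Finset.range K, univ.pi fun _ => ({i}ᶜ ×ˢ univ) ×ˢ univ) ×ˢ univ) ?_).trans ?_
  · rintro ⟨X, U⟩ h
    refine ⟨?_, trivial⟩
    obtain ⟨f, f1, f2⟩ := nxt hn h
    refine or_iff_not_imp_right.2 fun e => ⟨show ∀ i < K, ∃ v, (X v).1.1 = i by simpa [Set.mem_pi] using e, Finset.mem_filter.2 ⟨by simp, fun i _ => ?_⟩⟩
    have : ∑ v, (if (X v).1.1 = i ∧ (X v).2 then 1 else 0 : ℤ) ≤ ∑ v, if (X v).1.1 = i ∧ !(X v).2 then 1 else 0 := by
      rw [← f1.sum_comp fun v => (if (X v).1.1 = i ∧ !(X v).2 then 1 else 0 : ℤ)]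
      refine Finset.sum_le_sum fun v _ => ?_
      have : W (X v) (X (f v)) ≠ 0 ∨ W (X (f v)) (X v) ≠ 0 :=
        (f2 v).2.imp (fun e => ((U _).2.1.trans_lt e.2).ne') fun e => ((U _).2.1.trans_lt e.2).ne'
      unfold W at this
      grind
    refine (sub_nonneg.2 this).trans_eq ?_
    rw [← Finset.sum_sub_distrib]
    exact Finset.sum_congr rfl fun v _ => by
      simp only [MeasurableEquiv.arrowProdEquivProdArrow, MeasurableEquiv.coe_mk, Equiv.arrowProdEquivProdArrow_apply]
      grind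
  · rw [measureReal_prod_prod, probReal_univ, mul_one]
    exact (measureReal_union_le _ _).trans (add_le_add a ((measureReal_biUnion_finset_le _ _).trans_eq (by simp only [← b]; rfl)))

theorem result : ∃ (Ω : Type) (_ : MeasurableSpace Ω) (_ : StandardBorelSpace Ω) (μ : Measure Ω)
    (_ : IsProbabilityMeasure μ) (W : Ω → Ω → ℝ), (∀ x, μ {x} = 0) ∧ Measurable (fun p : Ω × Ω => W p.1 p.2) ∧
    (∀ x y, W x y = W y x) ∧ (∀ x y, W x y ∈ Icc (0 : ℝ) 1) ∧ Conn μ W ∧ ¬Tail μ W ∧ ¬Narrow μ W ∧ ¬Bip μ W ∧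
    Tendsto (PH μ W) atTop (𝓝 0) := by
  refine ⟨Ω, inferInstance, inferInstance, μ, inferInstance, W, fun ⟨⟨i, u⟩, b⟩ => by
    simp [μ, ← singleton_prod_singleton], mW,
    fun x y => by unfold W; grind, W01, conn, tail, narrow, fun ⟨S, hS, _, _, h⟩ => half hS ?_ ?_,
    tendsto_order.2 ⟨fun a ha => .of_forall fun n => ha.trans_le measureReal_nonneg, fun a ha => ?_⟩⟩
  · exact (Z h (S := S ∩ C) (T := S ∩ C) ((prod_mono inter_subset_left inter_subset_left).trans subset_union_left)
      fun x a y b => by simp_all [W, C]).elim id id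
  · exact (Z h (S := Sᶜ ∩ C) (T := Sᶜ ∩ C) ((prod_mono inter_subset_left inter_subset_left).trans subset_union_right)
      fun x a y b => by simp_all [W, C]).elim id id
  obtain ⟨K, hK⟩ := exists_pow_lt_of_lt_one ha (by norm_num : (3 / 4 : ℝ) < 1)
  have := (tendsto_finsetSum (Finset.range K) fun i _ => tendsto_pow_atTop_nhds_zero_of_lt_one
    (r := (1 - 2⁻¹ ^ (i + 1) : ℝ)) (sub_nonneg.2 (pow_le_one₀ (by norm_num) (by norm_num))) (by simp)).const_add ((3 / 4) ^ K)
  filter_upwards [this.eventually_lt_const (by simpa using hK), eventually_ge_atTop 2] with n h hn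
  exact (bound K n hn).trans_lt h

end Pool.Agent.Results.MP_e2d9cc_pr.Ham
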